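import Mathlib
import Pool.Agent.N446.FD.Final

set_option autoImplicit false

namespace Pool.Agent.Results.MP_7f4d60_co.WidthFour

open Pool.Agent.N446.FD Polynomial

/-- For `m = 4` there is no explicit expression in `n` for the fractional domination number of the
grid `P_4 × P_n`: there are no `q ≥ 1`, rational functions `P_a / Q_a` (even with real
coefficients), one for each residue class `a` modulo `q`, and finite set `E` of exceptional values
such that `γ_f(P_4 × P_n) = P_a(n) / Q_a(n)` for all `n ≥ 4` outside `E`, `a = n mod q`. -/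
theorem result : ¬ ∃ q : ℕ, 0 < q ∧ ∃ P Q : ℕ → ℝ[X], ∃ E : Finset ℕ, ∀ n : ℕ, 4 ≤ n → n ∉ E →
    fracDom (grid 4 n) = (P (n % q)).eval (n : ℝ) / (Q (n % q)).eval (n : ℝ) :=
  no_expr

end Pool.Agent.Results.MP_7f4d60_co.WidthFour
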